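import Mathlib

/-!
Shears `x ↦ x + H x`, `H` with values in a subspace `W` and constant along `W`, preserve the volume.
-/

set_option autoImplicit false
set_option linter.unusedSectionVars false

namespace Pool.Agent.Y278.SH

open MeasureTheory Set Real Filter Topology

variable {E : Type*} [NormedAddCommGroup E] [InnerProductSpace ℝ E] [FiniteDimensional ℝ E]
  [MeasurableSpace E] [BorelSpace E]

/-- the parametrisation `(a, b) ↦ a + b` of `E` by `Wᗮ × W` -/
noncomputable def LL (W : Submodule ℝ E) : (Wᗮ × W) ≃L[ℝ] E :=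
  (Submodule.prodEquivOfIsCompl Wᗮ W (Submodule.isCompl_orthogonal W).symm
    ).toContinuousLinearEquiv

theorem LL_apply (W : Submodule ℝ E) (p : Wᗮ × W) : LL W p = (p.1 : E) + (p.2 : E) := by
  unfold LL
  simp

theorem shear_mp (W : Submodule ℝ E) (H : E → E) (hc : Continuous H) (hW : ∀ x, H x ∈ W)
    (hi : ∀ x, ∀ w ∈ W, H (x + w) = H x) :
    MeasurePreserving (fun x => x + H x) (volume : Measure E) volume := by
  have hmc : Measurable (fun x : E => x + H x) := (continuous_id.add hc).measurable
  set ν : Measure (Wᗮ × W) := (volume : Measure Wᗮ).prod (volume : Measure W) with hν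
  have hH : (ν.map (LL W)).IsAddHaarMeasure := (LL W).isAddHaarMeasure_map _
  obtain ⟨c, hc0⟩ : ∃ c : NNReal, (volume : Measure E) = c • ν.map (LL W) :=
    ⟨_, Measure.isAddLeftInvariant_eq_smul _ _⟩
  have hLm : Measurable (LL W) := (LL W).continuous.measurable
  let k : Wᗮ → W := fun a => ⟨H a, hW _⟩
  have hk : Continuous k := (hc.comp continuous_subtype_val).subtype_mk _
  have hS : MeasurePreserving (fun p : Wᗮ × W => (p.1, p.2 + k p.1)) ν ν := by
    refine MeasurePreserving.skew_product (MeasurePreserving.id _) (g := fun a b => b + k a) ?_ ?_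
    · exact (continuous_snd.add (hk.comp continuous_fst)).measurable
    · exact Eventually.of_forall fun a => map_add_right_eq_self _ _
  have hmu : MeasurePreserving (fun x => x + H x) (ν.map (LL W)) (ν.map (LL W)) := by
    refine ⟨hmc, ?_⟩
    rw [Measure.map_map hmc hLm]
    have e1 : (fun x => x + H x) ∘ (LL W) = (LL W) ∘ (fun p : Wᗮ × W => (p.1, p.2 + k p.1)) := by
      funext p
      simp only [Function.comp, LL_apply]
      rw [hi _ _ p.2.2]
      simp only [k, Submodule.coe_add]
      abel
    rw [e1, ← Measure.map_map hLm hS.measurable, hS.map_eq]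
  refine ⟨hmc, ?_⟩
  rw [hc0, Measure.map_smul, hmu.map_eq]

/-- the shear as a homeomorphism -/
noncomputable def sh (W : Submodule ℝ E) (H : E → E) (hc : Continuous H) (hW : ∀ x, H x ∈ W)
    (hi : ∀ x, ∀ w ∈ W, H (x + w) = H x) : E ≃ₜ E where
  toFun x := x + H x
  invFun x := x - H x
  left_inv x := by
    simp only
    rw [hi x _ (hW x)]
    abel
  right_inv x := by
    simp only
    have : H (x - H x) = H x := by
      rw [sub_eq_add_neg]
      exact hi x _ (W.neg_mem (hW x))
    rw [this]
    abel
  continuous_toFun := continuous_id.add hc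
  continuous_invFun := continuous_id.sub hc

theorem setIntegral_shear {F : Type*} [NormedAddCommGroup F] [NormedSpace ℝ F]
    (W : Submodule ℝ E) (H : E → E) (hc : Continuous H) (hW : ∀ x, H x ∈ W)
    (hi : ∀ x, ∀ w ∈ W, H (x + w) = H x) (Ω : Set E) (g : E → F) :
    ∫ x in (fun x => x + H x) '' Ω, g x = ∫ x in Ω, g (x + H x) := by
  exact (shear_mp W H hc hW hi).setIntegral_image_emb
    (sh W H hc hW hi).measurableEmbedding g Ω

theorem isOpen_shear (W : Submodule ℝ E) (H : E → E) (hc : Continuous H) (hW : ∀ x, H x ∈ W)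
    (hi : ∀ x, ∀ w ∈ W, H (x + w) = H x) {Ω : Set E} (ho : IsOpen Ω) :
    IsOpen ((fun x => x + H x) '' Ω) :=
  (sh W H hc hW hi).isOpenMap _ ho

theorem bdd_shear (H : E → E) (hc : Continuous H) {Ω : Set E} (hb : Bornology.IsBounded Ω) :
    Bornology.IsBounded ((fun x => x + H x) '' Ω) := by
  have h1 : IsCompact (closure Ω) := hb.isCompact_closure
  exact ((h1.image (continuous_id.add hc)).isBounded).subset (image_mono subset_closure)

end Pool.Agent.Y278.SH
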