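import Mathlib

/-!
Integrals `∫ a(x) exp(i z f(x))` are entire; zeros; a function of `h` whose moments vanish.
-/

set_option autoImplicit false
set_option linter.unusedSectionVars false

namespace Pool.Agent.Y278.SH

open MeasureTheory Set Real Filter Topology

theorem entire_int {α : Type*} [MeasurableSpace α] {μ : Measure α} [IsFiniteMeasure μ]
    {a : α → ℂ} {f : α → ℝ} (ha : AEStronglyMeasurable a μ) (hf : AEStronglyMeasurable f μ)
    {A M : ℝ} (hA : ∀ᵐ x ∂μ, ‖a x‖ ≤ A) (hM : ∀ᵐ x ∂μ, |f x| ≤ M) :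
    Differentiable ℂ (fun z : ℂ => ∫ x, a x * Complex.exp (Complex.I * z * f x) ∂μ) := by
  intro z0
  have hfc : AEStronglyMeasurable (fun x => (f x : ℂ)) μ :=
    Complex.continuous_ofReal.comp_aestronglyMeasurable hf
  have hmeas : ∀ z : ℂ, AEStronglyMeasurable
      (fun x => a x * Complex.exp (Complex.I * z * f x)) μ := by
    intro z
    refine ha.mul ?_
    exact Complex.continuous_exp.comp_aestronglyMeasurable (hfc.const_mul _)
  have hexp : ∀ z : ℂ, ∀ y : ℝ, |y| ≤ M →
      ‖Complex.exp (Complex.I * z * y)‖ ≤ Real.exp (‖z‖ * M) := by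
    intro z y hy
    rw [Complex.norm_exp]
    refine Real.exp_le_exp.mpr ?_
    refine (Complex.re_le_norm _).trans ?_
    rw [norm_mul, norm_mul, Complex.norm_I, one_mul, Complex.norm_real, Real.norm_eq_abs]
    exact mul_le_mul_of_nonneg_left hy (norm_nonneg _)
  have hb : ∀ᵐ x ∂μ, ∀ z ∈ Metric.ball z0 1,
      ‖a x * (Complex.exp (Complex.I * z * f x) * (Complex.I * f x))‖ ≤
        A * (Real.exp ((‖z0‖ + 1) * M) * M) := by
    filter_upwards [hA, hM] with x hx1 hx2 z hz
    have hM0 : 0 ≤ M := (abs_nonneg _).trans hx2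
    have hzn : ‖z‖ ≤ ‖z0‖ + 1 := by
      have : ‖z‖ ≤ ‖z0‖ + ‖z - z0‖ := by
        have := norm_add_le z0 (z - z0)
        simpa using this
      have h2 : ‖z - z0‖ < 1 := by simpa [dist_eq_norm] using hz
      linarith
    rw [norm_mul, norm_mul, norm_mul, Complex.norm_I, one_mul, Complex.norm_real, Real.norm_eq_abs]
    have h3 := (hexp z _ hx2).trans (Real.exp_le_exp.mpr (mul_le_mul_of_nonneg_right hzn hM0))
    have h4 : (0 : ℝ) ≤ A := (norm_nonneg _).trans hx1
    have h5 : 0 ≤ Real.exp ((‖z0‖ + 1) * M) := (Real.exp_pos _).le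
    exact mul_le_mul hx1 (mul_le_mul h3 hx2 (abs_nonneg _) h5) (by positivity) h4
  have h0 : Integrable (fun x => a x * Complex.exp (Complex.I * z0 * f x)) μ := by
    refine Integrable.of_bound (hmeas z0) (A * Real.exp (‖z0‖ * M)) ?_
    filter_upwards [hA, hM] with x hx1 hx2
    rw [norm_mul]
    exact mul_le_mul hx1 (hexp z0 _ hx2) (norm_nonneg _) ((norm_nonneg _).trans hx1)
  have key := hasDerivAt_integral_of_dominated_loc_of_deriv_le (𝕜 := ℂ) (μ := μ) (x₀ := z0)
    (F := fun z x => a x * Complex.exp (Complex.I * z * f x))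
    (F' := fun z x => a x * (Complex.exp (Complex.I * z * f x) * (Complex.I * f x)))
    (s := Metric.ball z0 1) (bound := fun _ => A * (Real.exp ((‖z0‖ + 1) * M) * M))
    (Metric.ball_mem_nhds z0 one_pos)
    (Eventually.of_forall fun z => hmeas z) h0
    ((ha.mul ((Complex.continuous_exp.comp_aestronglyMeasurable (hfc.const_mul _)).mul
      (hfc.const_mul _))))
    hb (integrable_const _) ?_
  · exact key.2.differentiableAt
  · refine Eventually.of_forall fun x z _ => ?_
    have h1 : HasDerivAt (fun z : ℂ => Complex.I * z * f x) (Complex.I * f x) z := by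
      have := ((hasDerivAt_id z).const_mul Complex.I).mul_const (f x : ℂ)
      simpa using this
    exact (h1.cexp).const_mul (a x)

/-- polynomial phases -/
theorem entire_poly {α : Type*} [MeasurableSpace α] {μ : Measure α} [IsFiniteMeasure μ]
    {a : α → ℂ} {f : ℕ → α → ℝ} (d : ℕ) (ha : AEStronglyMeasurable a μ)
    (hf : ∀ j, AEStronglyMeasurable (f j) μ)
    {A M : ℝ} (hA : ∀ᵐ x ∂μ, ‖a x‖ ≤ A) (hM : ∀ᵐ x ∂μ, ∀ j ∈ Finset.range (d + 1), |f j x| ≤ M) :
    Differentiable ℂ (fun z : ℂ => ∫ x, a x *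
      Complex.exp (Complex.I * ∑ j ∈ Finset.range (d + 1), z ^ j * (f j x : ℂ)) ∂μ) := by
  intro z0
  have hfc : ∀ j, AEStronglyMeasurable (fun x => (f j x : ℂ)) μ := fun j =>
    Complex.continuous_ofReal.comp_aestronglyMeasurable (hf j)
  have hsm : ∀ c : ℕ → ℂ, AEStronglyMeasurable
      (fun x => ∑ j ∈ Finset.range (d + 1), c j * (f j x : ℂ)) μ := by
    intro c
    exact Finset.aestronglyMeasurable_fun_sum _ fun j _ => (hfc j).const_mul _
  have hmeas : ∀ z : ℂ, AEStronglyMeasurable
      (fun x => a x * Complex.exp (Complex.I * ∑ j ∈ Finset.range (d + 1), z ^ j * (f j x : ℂ)))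
      μ := by
    intro z
    exact ha.mul (Complex.continuous_exp.comp_aestronglyMeasurable
      ((hsm fun j => z ^ j).const_mul _))
  set R : ℝ := ‖z0‖ + 1 with hR
  have hR1 : 1 ≤ R := by rw [hR]; linarith [norm_nonneg z0]
  have hpn : ∀ z : ℂ, ‖z‖ ≤ R → ∀ y : ℕ → ℝ, (∀ j ∈ Finset.range (d + 1), |y j| ≤ M) →
      ‖∑ j ∈ Finset.range (d + 1), z ^ j * (y j : ℂ)‖ ≤ (d + 1) * (R ^ d * M) := by
    intro z hz y hy
    refine (norm_sum_le _ _).trans ?_
    have : ∑ j ∈ Finset.range (d + 1), ‖z ^ j * (y j : ℂ)‖ ≤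
        ∑ _j ∈ Finset.range (d + 1), R ^ d * M := by
      refine Finset.sum_le_sum fun j hj => ?_
      rw [norm_mul, norm_pow, Complex.norm_real, Real.norm_eq_abs]
      have h1 : ‖z‖ ^ j ≤ R ^ d := (pow_le_pow_left₀ (norm_nonneg _) hz j).trans
        (pow_le_pow_right₀ hR1 (by simpa [Nat.lt_succ_iff] using hj))
      exact mul_le_mul h1 (hy j hj) (abs_nonneg _) (by positivity)
    refine this.trans ?_
    rw [Finset.sum_const, Finset.card_range, nsmul_eq_mul]
    push_cast
    exact le_rfl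
  have hpd : ∀ z : ℂ, ‖z‖ ≤ R → ∀ y : ℕ → ℝ, (∀ j ∈ Finset.range (d + 1), |y j| ≤ M) →
      ‖∑ j ∈ Finset.range (d + 1), ((j : ℂ) * z ^ (j - 1)) * (y j : ℂ)‖ ≤
        (d + 1) * (d * R ^ d * M) := by
    intro z hz y hy
    refine (norm_sum_le _ _).trans ?_
    have : ∑ j ∈ Finset.range (d + 1), ‖((j : ℂ) * z ^ (j - 1)) * (y j : ℂ)‖ ≤
        ∑ _j ∈ Finset.range (d + 1), d * R ^ d * M := by
      refine Finset.sum_le_sum fun j hj => ?_
      have hjd : j ≤ d := by simpa [Nat.lt_succ_iff] using hj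
      rw [norm_mul, norm_mul, norm_pow, Complex.norm_real, Real.norm_eq_abs, Complex.norm_natCast]
      have h1 : ‖z‖ ^ (j - 1) ≤ R ^ d := (pow_le_pow_left₀ (norm_nonneg _) hz _).trans
        (pow_le_pow_right₀ hR1 (by omega))
      have h2 : (j : ℝ) ≤ d := by exact_mod_cast hjd
      exact mul_le_mul (mul_le_mul h2 h1 (by positivity) (by positivity)) (hy j hj)
        (abs_nonneg _) (by positivity)
    refine this.trans ?_
    rw [Finset.sum_const, Finset.card_range, nsmul_eq_mul]
    push_cast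
    exact le_rfl
  have hexp : ∀ z : ℂ, ‖z‖ ≤ R → ∀ y : ℕ → ℝ, (∀ j ∈ Finset.range (d + 1), |y j| ≤ M) →
      ‖Complex.exp (Complex.I * ∑ j ∈ Finset.range (d + 1), z ^ j * (y j : ℂ))‖ ≤
        Real.exp ((d + 1) * (R ^ d * M)) := by
    intro z hz y hy
    rw [Complex.norm_exp]
    refine Real.exp_le_exp.mpr ((Complex.re_le_norm _).trans ?_)
    rw [norm_mul, Complex.norm_I, one_mul]
    exact hpn z hz y hy
  have hb : ∀ᵐ x ∂μ, ∀ z ∈ Metric.ball z0 1,
      ‖a x * (Complex.exp (Complex.I * ∑ j ∈ Finset.range (d + 1), z ^ j * (f j x : ℂ)) *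
        (Complex.I * ∑ j ∈ Finset.range (d + 1), ((j : ℂ) * z ^ (j - 1)) * (f j x : ℂ)))‖ ≤
        A * (Real.exp ((d + 1) * (R ^ d * M)) * ((d + 1) * (d * R ^ d * M))) := by
    filter_upwards [hA, hM] with x hx1 hx2 z hz
    have hzn : ‖z‖ ≤ R := by
      have : ‖z‖ ≤ ‖z0‖ + ‖z - z0‖ := by
        have := norm_add_le z0 (z - z0)
        simpa using this
      have h2 : ‖z - z0‖ < 1 := by simpa [dist_eq_norm] using hz
      linarith
    have h4 : (0 : ℝ) ≤ A := (norm_nonneg _).trans hx1
    rw [norm_mul, norm_mul, norm_mul, Complex.norm_I, one_mul]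
    exact mul_le_mul hx1 (mul_le_mul (hexp z hzn _ hx2) (hpd z hzn _ hx2) (norm_nonneg _)
      (Real.exp_pos _).le) (by positivity) h4
  have h0 : Integrable (fun x => a x *
      Complex.exp (Complex.I * ∑ j ∈ Finset.range (d + 1), z0 ^ j * (f j x : ℂ))) μ := by
    refine Integrable.of_bound (hmeas z0) (A * Real.exp ((d + 1) * (R ^ d * M))) ?_
    filter_upwards [hA, hM] with x hx1 hx2
    rw [norm_mul]
    exact mul_le_mul hx1 (hexp z0 (by rw [hR]; linarith) _ hx2) (norm_nonneg _)
      ((norm_nonneg _).trans hx1)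
  have key := hasDerivAt_integral_of_dominated_loc_of_deriv_le (𝕜 := ℂ) (μ := μ) (x₀ := z0)
    (F := fun z x => a x *
      Complex.exp (Complex.I * ∑ j ∈ Finset.range (d + 1), z ^ j * (f j x : ℂ)))
    (F' := fun z x => a x *
      (Complex.exp (Complex.I * ∑ j ∈ Finset.range (d + 1), z ^ j * (f j x : ℂ)) *
        (Complex.I * ∑ j ∈ Finset.range (d + 1), ((j : ℂ) * z ^ (j - 1)) * (f j x : ℂ))))
    (s := Metric.ball z0 1)
    (bound := fun _ => A * (Real.exp ((d + 1) * (R ^ d * M)) * ((d + 1) * (d * R ^ d * M))))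
    (Metric.ball_mem_nhds z0 one_pos)
    (Eventually.of_forall fun z => hmeas z) h0
    (ha.mul ((Complex.continuous_exp.comp_aestronglyMeasurable
      ((hsm fun j => z0 ^ j).const_mul _)).mul ((hsm fun j => (j : ℂ) * z0 ^ (j - 1)).const_mul _)))
    hb (integrable_const _) ?_
  · exact key.2.differentiableAt
  · refine Eventually.of_forall fun x z _ => ?_
    have h1 : HasDerivAt (fun z : ℂ => ∑ j ∈ Finset.range (d + 1), z ^ j * (f j x : ℂ))
        (∑ j ∈ Finset.range (d + 1), ((j : ℂ) * z ^ (j - 1)) * (f j x : ℂ)) z := by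
      refine HasDerivAt.fun_sum fun j _ => ?_
      exact (hasDerivAt_pow j z).mul_const _
    exact ((h1.const_mul Complex.I).cexp).const_mul (a x)

theorem real_analytic {F : ℂ → ℂ} (hF : Differentiable ℂ F) :
    AnalyticOnNhd ℝ (fun t : ℝ => F t) univ := by
  intro t _
  have h1 : AnalyticAt ℂ F (t : ℂ) := hF.analyticAt _
  have h2 : AnalyticAt ℝ F (t : ℂ) := h1.restrictScalars
  exact h2.comp (Complex.ofRealCLM.analyticAt t)

theorem zeros {G : ℝ → ℂ} (hG : AnalyticOnNhd ℝ G univ) (h : ¬ {t | G t = 0}.Countable) :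
    ∀ t, G t = 0 := by
  have h1 : ∃ N : ℕ, ({t | G t = 0} ∩ Icc (-(N : ℝ)) N).Infinite := by
    by_contra hcon
    push Not at hcon
    apply h
    have h2 : {t | G t = 0} = ⋃ N : ℕ, ({t | G t = 0} ∩ Icc (-(N : ℝ)) N) := by
      ext t
      simp only [mem_iUnion, mem_inter_iff, mem_Icc]
      constructor
      · intro ht
        obtain ⟨N, hN⟩ := exists_nat_ge |t|
        exact ⟨N, ht, (abs_le.mp hN).1, (abs_le.mp hN).2⟩
      · rintro ⟨N, ht, -⟩
        exact ht
    rw [h2]
    exact countable_iUnion fun N => (hcon N).countable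
  obtain ⟨N, hN⟩ := h1
  obtain ⟨t0, -, ht0⟩ := hN.exists_accPt_of_subset_isCompact isCompact_Icc inter_subset_right
  have hf : ∃ᶠ t in 𝓝[≠] t0, G t = 0 :=
    (accPt_iff_frequently_nhdsNE.mp ht0).mono fun t ht => ht.1
  have h3 := hG.eqOn_zero_of_preconnected_of_frequently_eq_zero isPreconnected_univ
    (mem_univ t0) hf
  exact fun t => h3 (mem_univ t)

theorem level {α : Type*} [MeasurableSpace α] {μ : Measure α} [IsFiniteMeasure μ]
    {h : α → ℝ} (hh : Measurable h) {u : α → ℝ} (hu : Integrable u μ)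
    (hz : ∀ τ : ℝ, ∫ x, (u x : ℂ) * Complex.exp (Complex.I * τ * h x) ∂μ = 0) {A : Set ℝ}
    (hA : MeasurableSet A) :
    ∫⁻ x in h ⁻¹' A, ENNReal.ofReal (u x) ∂μ = ∫⁻ x in h ⁻¹' A, ENNReal.ofReal (- u x) ∂μ := by
  have hm1 : AEMeasurable (fun x => ENNReal.ofReal (u x)) μ := hu.aemeasurable.ennreal_ofReal
  have hm2 : AEMeasurable (fun x => ENNReal.ofReal (- u x)) μ := hu.neg.aemeasurable.ennreal_ofReal
  have f1 : IsFiniteMeasure (μ.withDensity fun x => ENNReal.ofReal (u x)) :=
    isFiniteMeasure_withDensity_ofReal hu.2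
  have f2 : IsFiniteMeasure (μ.withDensity fun x => ENNReal.ofReal (- u x)) :=
    isFiniteMeasure_withDensity_ofReal hu.neg.2
  have key : (μ.withDensity (fun x => ENNReal.ofReal (u x))).map h
      = (μ.withDensity (fun x => ENNReal.ofReal (- u x))).map h := by
    apply Measure.ext_of_charFun
    funext τ
    have hcm : ∀ ν : Measure α, AEStronglyMeasurable (fun y : ℝ =>
        Complex.exp ((inner ℝ y τ : ℝ) * Complex.I)) (ν.map h) := by
      intro ν
      exact (by fun_prop : Continuous (fun y : ℝ =>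
        Complex.exp ((inner ℝ y τ : ℝ) * Complex.I))).aestronglyMeasurable
    rw [charFun_apply, charFun_apply, integral_map hh.aemeasurable (hcm _),
      integral_map hh.aemeasurable (hcm _),
      integral_withDensity_eq_integral_toReal_smul₀ hm1
        (Filter.Eventually.of_forall fun x => ENNReal.ofReal_lt_top),
      integral_withDensity_eq_integral_toReal_smul₀ hm2
        (Filter.Eventually.of_forall fun x => ENNReal.ofReal_lt_top)]
    have hce : Measurable (fun x => Complex.exp ((inner ℝ (h x) τ : ℝ) * Complex.I)) := by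
      fun_prop
    have hbd : ∀ x, ‖Complex.exp ((inner ℝ (h x) τ : ℝ) * Complex.I)‖ ≤ 1 := by
      intro x
      rw [Complex.norm_exp_ofReal_mul_I]
    have i1 : Integrable (fun x => (ENNReal.ofReal (u x)).toReal •
        Complex.exp ((inner ℝ (h x) τ : ℝ) * Complex.I)) μ := by
      refine Integrable.mono' hu.norm
        (hm1.ennreal_toReal.aestronglyMeasurable.smul hce.aestronglyMeasurable)
        (Eventually.of_forall fun x => ?_)
      rw [norm_smul, Complex.norm_exp_ofReal_mul_I, mul_one, ENNReal.toReal_ofReal',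
        Real.norm_eq_abs, Real.norm_eq_abs, abs_of_nonneg (le_max_right _ _)]
      exact max_le (le_abs_self _) (abs_nonneg _)
    have i2 : Integrable (fun x => (ENNReal.ofReal (- u x)).toReal •
        Complex.exp ((inner ℝ (h x) τ : ℝ) * Complex.I)) μ := by
      refine Integrable.mono' hu.norm
        (hm2.ennreal_toReal.aestronglyMeasurable.smul hce.aestronglyMeasurable)
        (Eventually.of_forall fun x => ?_)
      rw [norm_smul, Complex.norm_exp_ofReal_mul_I, mul_one, ENNReal.toReal_ofReal',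
        Real.norm_eq_abs, Real.norm_eq_abs, abs_of_nonneg (le_max_right _ _)]
      exact max_le (neg_le_abs _) (abs_nonneg _)
    rw [← sub_eq_zero, ← integral_sub i1 i2]
    rw [← hz τ]
    refine integral_congr_ae (Eventually.of_forall fun x => ?_)
    simp only [← sub_smul, ENNReal.toReal_ofReal']
    have e1 : max (u x) 0 - max (- u x) 0 = u x := by
      rcases le_total 0 (u x) with h1 | h1
      · rw [max_eq_left h1, max_eq_right (by linarith)]; ring
      · rw [max_eq_right h1, max_eq_left (by linarith)]; ring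
    rw [e1, Complex.real_smul]
    congr 2
    simp only [RCLike.inner_apply, conj_trivial]
    push_cast
    ring
  have h1 := congrArg (fun m => m A) key
  simp only [Measure.map_apply hh hA, withDensity_apply _ (hh hA)] at h1
  exact h1

end Pool.Agent.Y278.SH
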