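import Mathlib
import Pool.Agent.Y278.SH.A
import Pool.Agent.Y278.SH.B

/-!
Fourier transforms of sheared domains: the countability theorem.
-/

set_option autoImplicit false
set_option linter.unusedSectionVars false

namespace Pool.Agent.Y278.SH

open MeasureTheory Set Real Filter Topology

variable {E : Type*} [NormedAddCommGroup E] [InnerProductSpace ℝ E] [FiniteDimensional ℝ E]
  [MeasurableSpace E] [BorelSpace E]

/-- a neighbourhood of a level set -/
theorem level_nhd {K : Set E} (hK : IsCompact K) {h g : E → ℝ} (hh : Continuous h)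
    (hg : Continuous g) {m c ε : ℝ} (hε : 0 < ε) (hs : ∀ x ∈ K, h x = m → g x = c) :
    ∃ δ : ℝ, 0 < δ ∧ ∀ x ∈ K, |h x - m| < δ → |g x - c| < ε := by
  have hcl : IsClosed {x | ε ≤ |g x - c|} :=
    isClosed_le continuous_const ((hg.sub continuous_const).abs)
  have hK2 : IsCompact (K ∩ {x | ε ≤ |g x - c|}) := hK.inter_right hcl
  rcases (K ∩ {x | ε ≤ |g x - c|}).eq_empty_or_nonempty with h0 | h0
  · refine ⟨1, one_pos, fun x hx _ => ?_⟩
    by_contra hcon
    have : x ∈ K ∩ {x | ε ≤ |g x - c|} := ⟨hx, not_lt.mp hcon⟩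
    rw [h0] at this
    exact this
  · obtain ⟨x0, hx0, hmin⟩ := hK2.exists_isMinOn h0
      ((hh.sub continuous_const).abs : Continuous fun x => |h x - m|).continuousOn
    have hpos : 0 < |h x0 - m| := by
      refine abs_pos.mpr fun h1 => ?_
      have h2 := hs x0 hx0.1 (sub_eq_zero.mp h1)
      have h3 : ε ≤ |g x0 - c| := hx0.2
      rw [h2, sub_self, abs_zero] at h3
      linarith
    refine ⟨|h x0 - m|, hpos, fun x hx hlt => ?_⟩
    by_contra hcon
    have h4 : |h x0 - m| ≤ |h x - m| :=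
      hmin (⟨hx, not_lt.mp hcon⟩ : x ∈ K ∩ {x | ε ≤ |g x - c|})
    linarith

/-- the Fourier transform of the indicator of `Ω` vanishes on the sphere of radius `r` -/
def FZ (Ω : Set E) (r : ℝ) : Prop :=
  ∀ ξ : E, ‖ξ‖ = r → ∫ x in Ω, Complex.exp (Complex.I * (inner ℝ ξ x : ℝ)) = 0

section

variable {W : Submodule ℝ E} {H : ℕ → E → E} {v w : E} {Ω : Set E}

/-- the displacement field at time `t` -/
noncomputable def fld (H : ℕ → E → E) (d : ℕ) (t : ℝ) (x : E) : E :=
  ∑ j ∈ Finset.range (d + 1), t ^ j • H j x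

theorem fld_cont (hc : ∀ j, Continuous (H j)) (d : ℕ) (t : ℝ) : Continuous (fld H d t) := by
  unfold fld
  exact continuous_finsetSum _ fun j _ => (hc j).const_smul _

theorem fld_mem (hW : ∀ j x, H j x ∈ W) (d : ℕ) (t : ℝ) (x : E) : fld H d t x ∈ W :=
  W.sum_mem fun j _ => W.smul_mem _ (hW j x)

theorem fld_inv (hi : ∀ j x, ∀ y ∈ W, H j (x + y) = H j x) (d : ℕ) (t : ℝ) (x : E) (y : E)
    (hy : y ∈ W) : fld H d t (x + y) = fld H d t x := by
  unfold fld
  exact Finset.sum_congr rfl fun j _ => by rw [hi j x y hy]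

theorem FZ_shear (hc : ∀ j, Continuous (H j)) (hW : ∀ j x, H j x ∈ W)
    (hi : ∀ j x, ∀ y ∈ W, H j (x + y) = H j x) {d : ℕ}
    {t r : ℝ} (hz : FZ ((fun x => x + fld H d t x) '' Ω) r) (ξ : E) (hξ : ‖ξ‖ = r) :
    ∫ x in Ω, Complex.exp (Complex.I * (inner ℝ ξ (x + fld H d t x) : ℝ)) = 0 := by
  have h1 := hz ξ hξ
  rwa [setIntegral_shear W (fld H d t) (fld_cont hc d t) (fld_mem hW d t) (fld_inv hi d t) Ω
    (fun x => Complex.exp (Complex.I * (inner ℝ ξ x : ℝ)))] at h1

/-- the exceptional frequencies -/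
theorem freq_countable (hb : Bornology.IsBounded Ω) (ho : IsOpen Ω) (hne : Ω.Nonempty) :
    {r : ℝ | ∫ x in Ω, Complex.exp (Complex.I * (inner ℝ (r • v) x : ℝ)) = 0}.Countable := by
  have hfin : IsFiniteMeasure (volume.restrict Ω) := ⟨by
    rw [Measure.restrict_apply_univ]; exact hb.measure_lt_top⟩
  obtain ⟨R, hR⟩ := hb.exists_norm_le
  have hM : ∀ᵐ x ∂(volume.restrict Ω), |(inner ℝ v x : ℝ)| ≤ ‖v‖ * R := by
    refine (ae_restrict_mem ho.measurableSet).mono fun x hx => ?_
    exact (abs_real_inner_le_norm v x).trans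
      (mul_le_mul_of_nonneg_left (hR x hx) (norm_nonneg _))
  have hF := entire_int (μ := volume.restrict Ω) (a := fun _ : E => (1 : ℂ))
    (f := fun x => (inner ℝ v x : ℝ)) aestronglyMeasurable_const
    (by fun_prop : Continuous fun x : E => (inner ℝ v x : ℝ)).aestronglyMeasurable
    (A := 1) (Eventually.of_forall fun x => by simp) hM
  have hG := real_analytic hF
  by_contra hcon
  have h2 := zeros hG (fun h3 => hcon (h3.mono fun r hr => by
    simp only [mem_ofPred_eq] at hr ⊢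
    rw [← hr]
    refine integral_congr_ae (Eventually.of_forall fun x => ?_)
    simp only [one_mul]
    congr 1
    rw [real_inner_smul_left]
    push_cast
    ring))
  have h4 := h2 0
  simp only [Complex.ofReal_zero, mul_zero, zero_mul, Complex.exp_zero, mul_one,
    integral_const, MeasurableSet.univ, measureReal_restrict_apply, univ_inter,
    smul_eq_zero, one_ne_zero, or_false] at h4
  have h5 : 0 < volume Ω := ho.measure_pos volume hne
  have h6 : (volume Ω) ≠ ⊤ := hb.measure_lt_top.ne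
  have h7 : 0 < (volume : Measure E).real Ω := ENNReal.toReal_pos h5.ne' h6
  linarith

theorem fixed_freq (hv : ‖v‖ = 1) (hvW : ∀ y ∈ W, (inner ℝ v y : ℝ) = 0) (hw : w ∈ W)
    (ho : IsOpen Ω) (hb : Bornology.IsBounded Ω) (hc : ∀ j, Continuous (H j))
    (hW : ∀ j x, H j x ∈ W) (hi : ∀ j x, ∀ y ∈ W, H j (x + y) = H j x) {d : ℕ} (hd : d ≠ 0)
    {r : ℝ} (hr : 0 < r)
    (hT : ¬ {t : ℝ | FZ ((fun x => x + fld H d t x) '' Ω) r}.Countable) (τ : ℝ) :
    ∫ x in Ω, Complex.exp (Complex.I * (r * inner ℝ v x : ℝ)) *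
      Complex.exp (Complex.I * τ * (inner ℝ (H d x) w : ℝ)) = 0 := by
  have hfin : IsFiniteMeasure (volume.restrict Ω) := ⟨by
    rw [Measure.restrict_apply_univ]; exact hb.measure_lt_top⟩
  have hcomp : IsCompact (closure Ω) := hb.isCompact_closure
  have hhc : ∀ j, Continuous fun x => (inner ℝ (H j x) w : ℝ) := fun j =>
    (hc j).inner continuous_const
  have hMj : ∀ j, ∃ M : ℝ, ∀ x ∈ Ω, |(inner ℝ (H j x) w : ℝ)| ≤ M := by
    intro j
    obtain ⟨M, hM⟩ := (hcomp.bddAbove_image ((hhc j).abs.continuousOn))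
    exact ⟨M, fun x hx => hM ⟨x, subset_closure hx, rfl⟩⟩
  choose Mj hMj using hMj
  obtain ⟨M, hM⟩ : ∃ M : ℝ, ∀ j ∈ Finset.range (d + 1), Mj j ≤ M := by
    obtain ⟨M, hM⟩ := ((Finset.range (d + 1)).image Mj).bddAbove
    exact ⟨M, fun j hj => hM (Finset.mem_coe.mpr (Finset.mem_image_of_mem _ hj))⟩
  have hvv : (inner ℝ v v : ℝ) = 1 := by rw [real_inner_self_eq_norm_sq, hv]; norm_num
  let ξ : ℝ → E := fun s => √(r ^ 2 - s ^ 2 * ‖w‖ ^ 2) • v + s • w
  have hξc : Continuous ξ := by fun_prop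
  set s0 : ℝ := r / (‖w‖ + 1) with hs0
  have hw1 : 0 < ‖w‖ + 1 := by positivity
  have hs0p : 0 < s0 := div_pos hr hw1
  have hξn : ∀ s : ℝ, |s| < s0 → ‖ξ s‖ = r := by
    intro s h2
    have h3 : |s| * ‖w‖ ≤ r := by
      have : |s| * (‖w‖ + 1) < r := by
        rw [hs0, lt_div_iff₀ hw1] at h2
        exact h2
      nlinarith [abs_nonneg s]
    have h4 : 0 ≤ r ^ 2 - s ^ 2 * ‖w‖ ^ 2 := by
      have : (|s| * ‖w‖) ^ 2 ≤ r ^ 2 := pow_le_pow_left₀ (by positivity) h3 2
      rw [mul_pow, sq_abs] at this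
      linarith
    have h5 : ‖ξ s‖ ^ 2 = r ^ 2 := by
      rw [← real_inner_self_eq_norm_sq]
      simp only [ξ, inner_add_left, inner_add_right, real_inner_smul_left, real_inner_smul_right,
        hvv, hvW w hw, real_inner_comm v w, real_inner_self_eq_norm_sq w]
      have h6 := Real.mul_self_sqrt h4
      have h7 : (inner ℝ w v : ℝ) = 0 := by rw [real_inner_comm]; exact hvW w hw
      nlinarith
    exact (pow_left_inj₀ (norm_nonneg _) hr.le two_ne_zero).mp h5
  -- for small s all t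
  have hP : ∀ s : ℝ, |s| < s0 → ∀ t : ℝ,
      ∫ x in Ω, Complex.exp (Complex.I * (inner ℝ (ξ s) x : ℝ)) *
        Complex.exp (Complex.I * ∑ j ∈ Finset.range (d + 1),
          (t : ℂ) ^ j * ((s * inner ℝ (H j x) w : ℝ) : ℂ)) = 0 := by
    intro s h2
    have hF := entire_poly (μ := volume.restrict Ω) (d := d)
      (a := fun x : E => Complex.exp (Complex.I * (inner ℝ (ξ s) x : ℝ)))
      (f := fun j x => s * (inner ℝ (H j x) w : ℝ))
      (by fun_prop : Continuous fun x : E =>
        Complex.exp (Complex.I * (inner ℝ (ξ s) x : ℝ))).aestronglyMeasurable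
      (fun j => (continuous_const.mul (hhc j)).aestronglyMeasurable)
      (A := 1) (M := |s| * M)
      (Eventually.of_forall fun x => by rw [mul_comm, Complex.norm_exp_ofReal_mul_I])
      ((ae_restrict_mem ho.measurableSet).mono fun x hx j hj => by
        rw [abs_mul]
        exact mul_le_mul_of_nonneg_left ((hMj j x hx).trans (hM j hj)) (abs_nonneg _))
    have hG := real_analytic hF
    exact zeros hG (fun h4 => hT (h4.mono fun t ht => by
      simp only [mem_ofPred_eq] at ht ⊢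
      rw [← FZ_shear hc hW hi ht (ξ s) (hξn s h2)]
      refine integral_congr_ae (Eventually.of_forall fun x => ?_)
      simp only
      rw [← Complex.exp_add]
      congr 1
      have e1 : (inner ℝ (ξ s) (x + fld H d t x) : ℝ) =
          inner ℝ (ξ s) x + ∑ j ∈ Finset.range (d + 1), t ^ j * (s * inner ℝ (H j x) w) := by
        rw [inner_add_right]
        congr 1
        unfold fld
        rw [inner_sum]
        refine Finset.sum_congr rfl fun j _ => ?_
        rw [real_inner_smul_right]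
        congr 1
        simp only [ξ, inner_add_left, real_inner_smul_left, hvW _ (hW j x), mul_zero, zero_add]
        rw [real_inner_comm]
      rw [e1]
      push_cast
      ring))
  -- the choice of s and t
  obtain ⟨ε, κ, hε, hκ⟩ : ∃ ε κ : ℝ, |ε| = 1 ∧ ε * κ ^ d = τ := by
    have h1 : (|τ| ^ ((d : ℝ)⁻¹)) ^ d = |τ| := Real.rpow_inv_natCast_pow (abs_nonneg _) hd
    rcases le_total 0 τ with h2 | h2
    · exact ⟨1, |τ| ^ ((d : ℝ)⁻¹), abs_one, by rw [h1, abs_of_nonneg h2, one_mul]⟩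
    · exact ⟨-1, |τ| ^ ((d : ℝ)⁻¹), by simp, by rw [h1, abs_of_nonpos h2]; ring⟩
  have hQ : ∀ σ : ℝ, 0 < σ → σ < min 1 s0 →
      ∫ x in Ω, Complex.exp (Complex.I * (inner ℝ (ξ (ε * σ ^ d)) x : ℝ)) *
        Complex.exp (Complex.I * ∑ j ∈ Finset.range (d + 1),
          ((ε * κ ^ j * σ ^ (d - j) : ℝ) : ℂ) * (inner ℝ (H j x) w : ℝ)) = 0 := by
    intro σ h1 h2
    have h3 : |ε * σ ^ d| < s0 := by
      rw [abs_mul, hε, one_mul, abs_of_pos (pow_pos h1 d)]
      have h4 : σ ^ d ≤ σ ^ 1 := pow_le_pow_of_le_one h1.le (h2.trans_le (min_le_left _ _)).le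
        (Nat.one_le_iff_ne_zero.mpr hd)
      rw [pow_one] at h4
      exact h4.trans_lt (h2.trans_le (min_le_right _ _))
    rw [← hP (ε * σ ^ d) h3 (κ / σ)]
    refine integral_congr_ae (Eventually.of_forall fun x => ?_)
    simp only
    congr 3
    refine Finset.sum_congr rfl fun j hj => ?_
    have hjd : j ≤ d := by simpa [Nat.lt_succ_iff] using hj
    have h5 : ε * κ ^ j * σ ^ (d - j) = (κ / σ) ^ j * (ε * σ ^ d) := by
      have h6 : σ ^ d = σ ^ (d - j) * σ ^ j := by rw [← pow_add, Nat.sub_add_cancel hjd]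
      rw [h6, div_pow]
      have : σ ^ j ≠ 0 := (pow_pos h1 j).ne'
      field_simp
    rw [h5]
    push_cast
    ring
  -- continuity
  have hcont : Continuous fun σ : ℝ =>
      ∫ x in Ω, Complex.exp (Complex.I * (inner ℝ (ξ (ε * σ ^ d)) x : ℝ)) *
        Complex.exp (Complex.I * ∑ j ∈ Finset.range (d + 1),
          ((ε * κ ^ j * σ ^ (d - j) : ℝ) : ℂ) * (inner ℝ (H j x) w : ℝ)) := by
    refine continuous_of_dominated (bound := fun _ => 1) ?_ ?_ (integrable_const _) ?_
    · intro s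
      refine Continuous.aestronglyMeasurable ?_
      refine Continuous.mul (by fun_prop) (Complex.continuous_exp.comp (continuous_const.mul ?_))
      exact continuous_finsetSum _ fun j _ =>
        continuous_const.mul (Complex.continuous_ofReal.comp (hhc j))
    · intro σ
      refine Eventually.of_forall fun x => ?_
      rw [norm_mul, mul_comm Complex.I, Complex.norm_exp_ofReal_mul_I, one_mul]
      have : Complex.I * ∑ j ∈ Finset.range (d + 1),
          ((ε * κ ^ j * σ ^ (d - j) : ℝ) : ℂ) * ((inner ℝ (H j x) w : ℝ) : ℂ) =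
          ((∑ j ∈ Finset.range (d + 1),
            (ε * κ ^ j * σ ^ (d - j)) * (inner ℝ (H j x) w : ℝ) : ℝ) : ℂ) * Complex.I := by
        push_cast; ring
      rw [this, Complex.norm_exp_ofReal_mul_I]
    · refine Eventually.of_forall fun x => ?_
      refine Continuous.mul (by fun_prop) (Complex.continuous_exp.comp (continuous_const.mul ?_))
      exact continuous_finsetSum _ fun j _ =>
        (Complex.continuous_ofReal.comp (by fun_prop)).mul continuous_const
  have hlim := (hcont.tendsto 0).mono_left (nhdsWithin_le_nhds (s := Ioi (0 : ℝ)))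
  have hmin : 0 < min 1 s0 := lt_min one_pos hs0p
  have hev : ∀ᶠ σ in 𝓝[>] (0 : ℝ),
      ∫ x in Ω, Complex.exp (Complex.I * (inner ℝ (ξ (ε * σ ^ d)) x : ℝ)) *
        Complex.exp (Complex.I * ∑ j ∈ Finset.range (d + 1),
          ((ε * κ ^ j * σ ^ (d - j) : ℝ) : ℂ) * (inner ℝ (H j x) w : ℝ)) = 0 := by
    filter_upwards [self_mem_nhdsWithin, mem_nhdsWithin_of_mem_nhds (Iio_mem_nhds hmin)]
      with s h1 h2
    exact hQ s h1 h2
  have h9 := tendsto_nhds_unique hlim ((tendsto_congr' hev).mpr tendsto_const_nhds)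
  rw [← h9]
  refine integral_congr_ae (Eventually.of_forall fun x => ?_)
  simp only [ξ]
  have h10 : √(r ^ 2 - (ε * (0 : ℝ) ^ d) ^ 2 * ‖w‖ ^ 2) = r := by
    rw [zero_pow hd, mul_zero, zero_pow two_ne_zero, zero_mul, sub_zero, Real.sqrt_sq hr.le]
  have h11 : ∑ j ∈ Finset.range (d + 1),
      ((ε * κ ^ j * (0 : ℝ) ^ (d - j) : ℝ) : ℂ) * ((inner ℝ (H j x) w : ℝ) : ℂ) =
      (τ : ℂ) * ((inner ℝ (H d x) w : ℝ) : ℂ) := by
    rw [Finset.sum_eq_single d]
    · rw [Nat.sub_self, pow_zero, mul_one, hκ]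
    · intro j hj hjd
      have : j < d := lt_of_le_of_ne (by simpa [Nat.lt_succ_iff] using hj) hjd
      rw [zero_pow (by omega), mul_zero, Complex.ofReal_zero, zero_mul]
    · intro h
      exact absurd (Finset.mem_range.mpr (Nat.lt_succ_self d)) h
  rw [h10, h11, zero_pow hd, mul_zero, zero_smul, add_zero, real_inner_smul_left, mul_assoc]

end

end Pool.Agent.Y278.SH
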