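import Mathlib
import Pool.Agent.W632.Schiffer2
import Pool.Agent.Y278.SH.C

/-!
Sheared domains: the countability theorem.
-/

set_option autoImplicit false
set_option linter.unusedSectionVars false

namespace Pool.Agent.Y278.SH

open MeasureTheory Set Real Filter Topology

variable {E : Type*} [NormedAddCommGroup E] [InnerProductSpace ℝ E] [FiniteDimensional ℝ E]
  [MeasurableSpace E] [BorelSpace E]

/-- from complex exponentials to the cosine -/
theorem to_cos {Ω : Set E} (hb : Bornology.IsBounded Ω) {g h : E → ℝ} (hg : Continuous g)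
    (hh : Continuous h) (c : ℝ)
    (hz : ∀ τ : ℝ, ∫ x in Ω, Complex.exp (Complex.I * (g x : ℝ)) *
      Complex.exp (Complex.I * τ * (h x : ℝ)) = 0) (τ : ℝ) :
    ∫ x in Ω, ((Real.cos (g x - c) : ℝ) : ℂ) * Complex.exp (Complex.I * τ * (h x : ℝ)) = 0 := by
  have hfin : IsFiniteMeasure (volume.restrict Ω) := ⟨by
    rw [Measure.restrict_apply_univ]; exact hb.measure_lt_top⟩
  have n1 : ∀ (σ : ℝ) (x : E), ‖Complex.exp (Complex.I * σ * (h x : ℝ))‖ = 1 := by
    intro σ x
    have : Complex.I * σ * (h x : ℝ) = ((σ * h x : ℝ) : ℂ) * Complex.I := by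
      push_cast; ring
    rw [this, Complex.norm_exp_ofReal_mul_I]
  have J1 : ∫ x in Ω, Complex.exp (Complex.I * (g x - c : ℝ)) *
      Complex.exp (Complex.I * τ * (h x : ℝ)) = 0 := by
    have e1 : ∀ x : E, Complex.exp (Complex.I * (g x - c : ℝ)) *
        Complex.exp (Complex.I * τ * (h x : ℝ)) = Complex.exp (- (Complex.I * c)) *
        (Complex.exp (Complex.I * (g x : ℝ)) * Complex.exp (Complex.I * τ * (h x : ℝ))) := by
      intro x
      rw [← Complex.exp_add, ← Complex.exp_add, ← Complex.exp_add]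
      congr 1
      push_cast
      ring
    simp only [e1]
    rw [integral_const_mul, hz τ, mul_zero]
  have J2 : ∫ x in Ω, Complex.exp (- (Complex.I * (g x - c : ℝ))) *
      Complex.exp (Complex.I * τ * (h x : ℝ)) = 0 := by
    have e1 : ∀ x : E, Complex.exp (- (Complex.I * (g x - c : ℝ))) *
        Complex.exp (Complex.I * τ * (h x : ℝ)) = Complex.exp (Complex.I * c) *
        (starRingEnd ℂ) (Complex.exp (Complex.I * (g x : ℝ)) *
          Complex.exp (Complex.I * ((- τ : ℝ) : ℂ) * (h x : ℝ))) := by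
      intro x
      rw [map_mul, ← Complex.exp_conj, ← Complex.exp_conj, ← Complex.exp_add, ← Complex.exp_add,
        ← Complex.exp_add]
      congr 1
      simp only [map_mul, Complex.conj_I, Complex.conj_ofReal]
      push_cast
      ring
    simp only [e1]
    rw [integral_const_mul, integral_conj, hz (-τ), map_zero, mul_zero]
  have i1 : Integrable (fun x => Complex.exp (Complex.I * (g x - c : ℝ)) *
      Complex.exp (Complex.I * τ * (h x : ℝ))) (volume.restrict Ω) := by
    refine Integrable.of_bound (by fun_prop : Continuous fun x : E =>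
      Complex.exp (Complex.I * (g x - c : ℝ)) *
      Complex.exp (Complex.I * τ * (h x : ℝ))).aestronglyMeasurable 1
      (Eventually.of_forall fun x => ?_)
    rw [norm_mul, n1, mul_comm Complex.I, Complex.norm_exp_ofReal_mul_I, one_mul]
  have i2 : Integrable (fun x => Complex.exp (- (Complex.I * (g x - c : ℝ))) *
      Complex.exp (Complex.I * τ * (h x : ℝ))) (volume.restrict Ω) := by
    refine Integrable.of_bound (by fun_prop : Continuous fun x : E =>
      Complex.exp (- (Complex.I * (g x - c : ℝ))) *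
      Complex.exp (Complex.I * τ * (h x : ℝ))).aestronglyMeasurable 1
      (Eventually.of_forall fun x => ?_)
    have : - (Complex.I * (g x - c : ℝ)) = ((-(g x - c) : ℝ) : ℂ) * Complex.I := by
      push_cast; ring
    rw [norm_mul, n1, this, Complex.norm_exp_ofReal_mul_I, one_mul]
  have e3 : ∀ x : E, ((Real.cos (g x - c) : ℝ) : ℂ) * Complex.exp (Complex.I * τ * (h x : ℝ)) =
      (1 / 2 : ℂ) * (Complex.exp (Complex.I * (g x - c : ℝ)) *
        Complex.exp (Complex.I * τ * (h x : ℝ)) +
      Complex.exp (- (Complex.I * (g x - c : ℝ))) *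
        Complex.exp (Complex.I * τ * (h x : ℝ))) := by
    intro x
    rw [Complex.ofReal_cos, Complex.cos, mul_comm ((g x - c : ℝ) : ℂ) Complex.I,
      neg_mul, mul_comm ((g x - c : ℝ) : ℂ) Complex.I]
    ring
  simp only [e3]
  rw [integral_const_mul, integral_add i1 i2, J1, J2, add_zero, mul_zero]

/-- the countability theorem for Fourier transforms -/
theorem ft_countable {W : Submodule ℝ E} {H : ℕ → E → E} {v w : E} {Ω : Set E}
    (hv : ‖v‖ = 1) (hvW : ∀ y ∈ W, (inner ℝ v y : ℝ) = 0) (hw : w ∈ W)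
    (ho : IsOpen Ω) (hb : Bornology.IsBounded Ω) (hc : ∀ j, Continuous (H j))
    (hW : ∀ j x, H j x ∈ W) (hi : ∀ j x, ∀ y ∈ W, H j (x + y) = H j x) {d : ℕ} (hd : d ≠ 0)
    {m c : ℝ}
    (hm : ∃ x ∈ closure Ω, (inner ℝ (H d x) w : ℝ) = m)
    (hs : ∀ x ∈ closure Ω, (inner ℝ (H d x) w : ℝ) = m → (inner ℝ v x : ℝ) = c) :
    {t : ℝ | ∃ r : ℝ, 0 < r ∧ FZ ((fun x => x + fld H d t x) '' Ω) r}.Countable := by
  have hne : Ω.Nonempty := by
    obtain ⟨x, hx, -⟩ := hm
    exact closure_nonempty_iff.mp ⟨x, hx⟩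
  have hfin : IsFiniteMeasure (volume.restrict Ω) := ⟨by
    rw [Measure.restrict_apply_univ]; exact hb.measure_lt_top⟩
  have hhc : Continuous fun x => (inner ℝ (H d x) w : ℝ) := (hc d).inner continuous_const
  -- each frequency
  have hr : ∀ r : ℝ, 0 < r → {t : ℝ | FZ ((fun x => x + fld H d t x) '' Ω) r}.Countable := by
    intro r hr
    by_contra hT
    have h2 := to_cos hb (g := fun x => r * inner ℝ v x) (h := fun x => (inner ℝ (H d x) w : ℝ))
      (by fun_prop) hhc (r * c) (fun τ => fixed_freq hv hvW hw ho hb hc hW hi hd hr hT τ)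
    obtain ⟨δ, hδ, hd'⟩ := level_nhd hb.isCompact_closure hhc
      (by fun_prop : Continuous fun x : E => (inner ℝ v x : ℝ)) (inv_pos.mpr hr) hs
    set A : Set ℝ := Ioo (m - δ) (m + δ) with hA
    have hui : Integrable (fun x => Real.cos (r * inner ℝ v x - r * c)) (volume.restrict Ω) :=
      Integrable.of_bound (by fun_prop : Continuous fun x : E =>
        Real.cos (r * inner ℝ v x - r * c)).aestronglyMeasurable 1
        (Eventually.of_forall fun x => by simpa using Real.abs_cos_le_one _)
    have h3 := level hhc.measurable hui h2 (A := A) measurableSet_Ioo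
    have hmeas : MeasurableSet ((fun x => (inner ℝ (H d x) w : ℝ)) ⁻¹' A) :=
      hhc.measurable measurableSet_Ioo
    rw [Measure.restrict_restrict hmeas] at h3
    set S : Set E := (fun x => (inner ℝ (H d x) w : ℝ)) ⁻¹' A ∩ Ω with hS
    have hSo : IsOpen S := (isOpen_Ioo.preimage hhc).inter ho
    have hSn : S.Nonempty := by
      obtain ⟨x0, hx0, hx1⟩ := hm
      have h4 : (fun x => (inner ℝ (H d x) w : ℝ)) ⁻¹' A ∈ 𝓝 x0 := by
        refine (isOpen_Ioo.preimage hhc).mem_nhds ?_
        show (inner ℝ (H d x0) w : ℝ) ∈ A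
        rw [hx1, hA]
        exact ⟨by linarith, by linarith⟩
      exact mem_closure_iff_nhds.mp hx0 _ h4
    have hpos : ∀ x ∈ S, 0 < Real.cos (r * inner ℝ v x - r * c) := by
      intro x hx
      have h5 : |(inner ℝ (H d x) w : ℝ) - m| < δ := by
        have := hx.1
        simp only [mem_preimage, hA, mem_Ioo] at this
        rw [abs_lt]
        constructor <;> linarith [this.1, this.2]
      have h6 := hd' x (subset_closure hx.2) h5
      have h7 : |r * inner ℝ v x - r * c| < 1 := by
        rw [← mul_sub, abs_mul, abs_of_pos hr]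
        calc r * |(inner ℝ v x : ℝ) - c| < r * r⁻¹ := mul_lt_mul_of_pos_left h6 hr
          _ = 1 := mul_inv_cancel₀ hr.ne'
      have h8 := abs_lt.mp h7
      have h9 := Real.pi_gt_three
      exact Real.cos_pos_of_mem_Ioo ⟨by linarith, by linarith⟩
    have h10 : ∫⁻ x in S, ENNReal.ofReal (- Real.cos (r * inner ℝ v x - r * c)) = 0 := by
      rw [setLIntegral_congr_fun hSo.measurableSet (g := fun _ => 0)
        (fun x hx => by
          simp only
          rw [ENNReal.ofReal_eq_zero]
          linarith [hpos x hx])]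
      simp
    rw [h10] at h3
    have hmo : Measurable fun x : E => ENNReal.ofReal (Real.cos (r * inner ℝ v x - r * c)) := by
      fun_prop
    rw [lintegral_eq_zero_iff hmo] at h3
    have h11 : ∀ᵐ x ∂(volume.restrict S), False := by
      filter_upwards [h3, ae_restrict_mem hSo.measurableSet] with x hx1 hx2
      have h12 := ENNReal.ofReal_eq_zero.mp hx1
      linarith [hpos x hx2]
    have h13 : (volume.restrict S) univ = 0 := by
      have := ae_iff.mp h11
      simpa using this
    rw [Measure.restrict_apply_univ] at h13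
    exact (hSo.measure_pos volume hSn).ne' h13
  -- the frequencies form a countable set
  have hZ := freq_countable (v := v) hb ho hne
  have hZ' : ({r : ℝ | ∫ x in Ω, Complex.exp (Complex.I * (inner ℝ (r • v) x : ℝ)) = 0} ∩
      {r | 0 < r}).Countable := hZ.mono inter_subset_left
  refine (hZ'.biUnion fun r hr' => hr r hr'.2).mono ?_
  rintro t ⟨r, hr0, hz⟩
  refine mem_biUnion (x := r) ⟨?_, hr0⟩ hz
  have h1 := FZ_shear hc hW hi hz (r • v) (by rw [norm_smul, hv, Real.norm_eq_abs,
    abs_of_pos hr0, mul_one])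
  simp only [mem_ofPred_eq]
  rw [← h1]
  refine integral_congr_ae (Eventually.of_forall fun x => ?_)
  simp only
  rw [inner_add_right, real_inner_smul_left _ _ r, real_inner_smul_left _ _ r,
    hvW _ (fld_mem hW d t x), mul_zero, add_zero]

/-- from a weak solution to the zeros of the Fourier transform -/
theorem FZ_of_solvable {Ω : Set E} (hb : Bornology.IsBounded Ω) (hm : MeasurableSet Ω)
    {c lam : ℝ} (hlam : 0 < lam) {u : E → ℝ} {G : E → E}
    (hu2 : MemLp u 2 (volume.restrict Ω))
    (h1 : ∀ φ : E → ℝ, ContDiff ℝ 1 φ → HasCompactSupport φ → ∀ v : E,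
        ∫ x in Ω, (u x - c) * (fderiv ℝ φ x v) = - ∫ x in Ω, inner ℝ (G x) v * φ x)
    (h2 : ∀ φ : E → ℝ, ContDiff ℝ 1 φ → HasCompactSupport φ →
        ∫ x in Ω, fderiv ℝ φ x (G x) = lam * ∫ x in Ω, u x * φ x)
    (hne : ¬ (u =ᵐ[volume.restrict Ω] 0)) : FZ Ω (√lam) := by
  have hfin : IsFiniteMeasure (volume.restrict Ω) := ⟨by
    rw [Measure.restrict_apply_univ]; exact hb.measure_lt_top⟩
  intro ξ hξ
  have h3 := Pool.Agent.W632.Schiffer.ft_zero hb hm hlam hu2 h1 h2 hne ξ
    (by rw [hξ, Real.sq_sqrt hlam.le])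
  have e1 : ∀ x : E, Complex.exp (Complex.I * (inner ℝ ξ x : ℝ)) =
      ((Real.cos (inner ℝ ξ x) : ℝ) : ℂ) + ((Real.sin (inner ℝ ξ x) : ℝ) : ℂ) * Complex.I := by
    intro x
    rw [mul_comm, Complex.exp_mul_I, Complex.ofReal_cos, Complex.ofReal_sin]
  simp only [e1]
  have i1 : Integrable (fun x : E => ((Real.cos (inner ℝ ξ x) : ℝ) : ℂ)) (volume.restrict Ω) :=
    Integrable.of_bound (by fun_prop : Continuous fun x : E =>
      ((Real.cos (inner ℝ ξ x) : ℝ) : ℂ)).aestronglyMeasurable 1
      (Eventually.of_forall fun x => by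
        rw [Complex.norm_real]; simpa using Real.abs_cos_le_one _)
  have i2 : Integrable (fun x : E => ((Real.sin (inner ℝ ξ x) : ℝ) : ℂ) * Complex.I)
      (volume.restrict Ω) :=
    Integrable.of_bound (by fun_prop : Continuous fun x : E =>
      ((Real.sin (inner ℝ ξ x) : ℝ) : ℂ) * Complex.I).aestronglyMeasurable 1
      (Eventually.of_forall fun x => by
        rw [norm_mul, Complex.norm_I, mul_one, Complex.norm_real]
        simpa using Real.abs_sin_le_one _)
  rw [integral_add i1 i2, integral_mul_const, integral_complex_ofReal, integral_complex_ofReal, h3.1, h3.2]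
  simp

end Pool.Agent.Y278.SH
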