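import Mathlib
import Pool.Agent.Y278.SH.D

/-!
Volume-preserving deformations which fix one coordinate and move another one polynomially in time.
-/

set_option autoImplicit false
set_option linter.unusedSectionVars false

namespace Pool.Agent.Y278.SH

open MeasureTheory Set Real Filter Topology

variable {E : Type*} [NormedAddCommGroup E] [InnerProductSpace ℝ E] [FiniteDimensional ℝ E]
  [MeasurableSpace E] [BorelSpace E] {v w : E} {Ω : Set E} {φ : ℝ → E → E} {O : ℝ → Set E}
  {h : ℕ → E → ℝ}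

theorem FZ_push (hφ : ∀ t, Measurable (φ t))
    (hp : ∀ t, (volume.restrict Ω).map (φ t) = volume.restrict (O t)) {t r : ℝ}
    (hz : FZ (O t) r) (ξ : E) (hξ : ‖ξ‖ = r) :
    ∫ x in Ω, Complex.exp (Complex.I * (inner ℝ ξ (φ t x) : ℝ)) = 0 := by
  have h1 := hz ξ hξ
  rw [← hp t, integral_map (hφ t).aemeasurable (by fun_prop : Continuous fun x : E =>
    Complex.exp (Complex.I * (inner ℝ ξ x : ℝ))).aestronglyMeasurable] at h1
  exact h1

theorem fixed_freq' (hv : ‖v‖ = 1) (hvw : (inner ℝ v w : ℝ) = 0)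
    (ho : IsOpen Ω) (hb : Bornology.IsBounded Ω) (hφ : ∀ t, Measurable (φ t))
    (hp : ∀ t, (volume.restrict Ω).map (φ t) = volume.restrict (O t))
    (h1v : ∀ t, ∀ x ∈ Ω, (inner ℝ v (φ t x) : ℝ) = inner ℝ v x)
    (hhc : ∀ j, Continuous (h j)) {d : ℕ} (hd : d ≠ 0)
    (h1w : ∀ t, ∀ x ∈ Ω, (inner ℝ w (φ t x) : ℝ) = ∑ j ∈ Finset.range (d + 1), t ^ j * h j x)
    {r : ℝ} (hr : 0 < r) (hT : ¬ {t : ℝ | FZ (O t) r}.Countable) (τ : ℝ) :
    ∫ x in Ω, Complex.exp (Complex.I * (r * inner ℝ v x : ℝ)) *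
      Complex.exp (Complex.I * τ * (h d x : ℝ)) = 0 := by
  have hfin : IsFiniteMeasure (volume.restrict Ω) := ⟨by
    rw [Measure.restrict_apply_univ]; exact hb.measure_lt_top⟩
  have hcomp : IsCompact (closure Ω) := hb.isCompact_closure
  have hMj : ∀ j, ∃ M : ℝ, ∀ x ∈ Ω, |h j x| ≤ M := by
    intro j
    obtain ⟨M, hM⟩ := (hcomp.bddAbove_image ((hhc j).abs.continuousOn))
    exact ⟨M, fun x hx => hM ⟨x, subset_closure hx, rfl⟩⟩
  choose Mj hMj using hMj
  obtain ⟨M, hM⟩ : ∃ M : ℝ, ∀ j ∈ Finset.range (d + 1), Mj j ≤ M := by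
    obtain ⟨M, hM⟩ := ((Finset.range (d + 1)).image Mj).bddAbove
    exact ⟨M, fun j hj => hM (Finset.mem_coe.mpr (Finset.mem_image_of_mem _ hj))⟩
  have hvv : (inner ℝ v v : ℝ) = 1 := by rw [real_inner_self_eq_norm_sq, hv]; norm_num
  let ρ : ℝ → ℝ := fun s => √(r ^ 2 - s ^ 2 * ‖w‖ ^ 2)
  have hρc : Continuous ρ := by fun_prop
  let ξ : ℝ → E := fun s => ρ s • v + s • w
  set s0 : ℝ := r / (‖w‖ + 1) with hs0
  have hw1 : 0 < ‖w‖ + 1 := by positivity
  have hs0p : 0 < s0 := div_pos hr hw1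
  have hξn : ∀ s : ℝ, |s| < s0 → ‖ξ s‖ = r := by
    intro s h2
    have h3 : |s| * ‖w‖ ≤ r := by
      have : |s| * (‖w‖ + 1) < r := by
        rw [hs0, lt_div_iff₀ hw1] at h2
        exact h2
      nlinarith [abs_nonneg s]
    have h4 : 0 ≤ r ^ 2 - s ^ 2 * ‖w‖ ^ 2 := by
      have : (|s| * ‖w‖) ^ 2 ≤ r ^ 2 := pow_le_pow_left₀ (by positivity) h3 2
      rw [mul_pow, sq_abs] at this
      linarith
    have h5 : ‖ξ s‖ ^ 2 = r ^ 2 := by
      rw [← real_inner_self_eq_norm_sq]
      have h7 : (inner ℝ w v : ℝ) = 0 := by rw [real_inner_comm]; exact hvw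
      simp only [ξ, inner_add_left, inner_add_right, real_inner_smul_left, real_inner_smul_right,
        hvv, hvw, h7, real_inner_self_eq_norm_sq w]
      have h6 := Real.mul_self_sqrt h4
      simp only [ρ]
      nlinarith
    exact (pow_left_inj₀ (norm_nonneg _) hr.le two_ne_zero).mp h5
  -- for small s all t
  have hP : ∀ s : ℝ, |s| < s0 → ∀ t : ℝ,
      ∫ x in Ω, Complex.exp (Complex.I * (ρ s * inner ℝ v x : ℝ)) *
        Complex.exp (Complex.I * ∑ j ∈ Finset.range (d + 1),
          (t : ℂ) ^ j * ((s * h j x : ℝ) : ℂ)) = 0 := by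
    intro s h2
    have hF := entire_poly (μ := volume.restrict Ω) (d := d)
      (a := fun x : E => Complex.exp (Complex.I * (ρ s * inner ℝ v x : ℝ)))
      (f := fun j x => s * h j x)
      (by fun_prop : Continuous fun x : E =>
        Complex.exp (Complex.I * (ρ s * inner ℝ v x : ℝ))).aestronglyMeasurable
      (fun j => (continuous_const.mul (hhc j)).aestronglyMeasurable)
      (A := 1) (M := |s| * M)
      (Eventually.of_forall fun x => by rw [mul_comm, Complex.norm_exp_ofReal_mul_I])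
      ((ae_restrict_mem ho.measurableSet).mono fun x hx j hj => by
        rw [abs_mul]
        exact mul_le_mul_of_nonneg_left ((hMj j x hx).trans (hM j hj)) (abs_nonneg _))
    have hG := real_analytic hF
    exact zeros hG (fun h4 => hT (h4.mono fun t ht => by
      simp only [mem_ofPred_eq] at ht ⊢
      rw [← FZ_push hφ hp ht (ξ s) (hξn s h2)]
      refine setIntegral_congr_fun ho.measurableSet fun x hx => ?_
      rw [← Complex.exp_add]
      congr 1
      have e1 : (inner ℝ (ξ s) (φ t x) : ℝ) =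
          ρ s * inner ℝ v x + ∑ j ∈ Finset.range (d + 1), t ^ j * (s * h j x) := by
        simp only [ξ, inner_add_left, real_inner_smul_left, h1v t x hx, h1w t x hx]
        rw [Finset.mul_sum]
        congr 1
        exact Finset.sum_congr rfl fun j _ => by ring
      rw [e1]
      push_cast
      ring))
  -- the choice of s and t
  obtain ⟨ε, κ, hε, hκ⟩ : ∃ ε κ : ℝ, |ε| = 1 ∧ ε * κ ^ d = τ := by
    have h1 : (|τ| ^ ((d : ℝ)⁻¹)) ^ d = |τ| := Real.rpow_inv_natCast_pow (abs_nonneg _) hd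
    rcases le_total 0 τ with h2 | h2
    · exact ⟨1, |τ| ^ ((d : ℝ)⁻¹), abs_one, by rw [h1, abs_of_nonneg h2, one_mul]⟩
    · exact ⟨-1, |τ| ^ ((d : ℝ)⁻¹), by simp, by rw [h1, abs_of_nonpos h2]; ring⟩
  have hQ : ∀ σ : ℝ, 0 < σ → σ < min 1 s0 →
      ∫ x in Ω, Complex.exp (Complex.I * (ρ (ε * σ ^ d) * inner ℝ v x : ℝ)) *
        Complex.exp (Complex.I * ∑ j ∈ Finset.range (d + 1),
          ((ε * κ ^ j * σ ^ (d - j) : ℝ) : ℂ) * (h j x : ℝ)) = 0 := by
    intro σ h1 h2
    have h3 : |ε * σ ^ d| < s0 := by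
      rw [abs_mul, hε, one_mul, abs_of_pos (pow_pos h1 d)]
      have h4 : σ ^ d ≤ σ ^ 1 := pow_le_pow_of_le_one h1.le (h2.trans_le (min_le_left _ _)).le
        (Nat.one_le_iff_ne_zero.mpr hd)
      rw [pow_one] at h4
      exact h4.trans_lt (h2.trans_le (min_le_right _ _))
    rw [← hP (ε * σ ^ d) h3 (κ / σ)]
    refine integral_congr_ae (Eventually.of_forall fun x => ?_)
    simp only
    congr 3
    refine Finset.sum_congr rfl fun j hj => ?_
    have hjd : j ≤ d := by simpa [Nat.lt_succ_iff] using hj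
    have h5 : ε * κ ^ j * σ ^ (d - j) = (κ / σ) ^ j * (ε * σ ^ d) := by
      have h6 : σ ^ d = σ ^ (d - j) * σ ^ j := by rw [← pow_add, Nat.sub_add_cancel hjd]
      rw [h6, div_pow]
      have : σ ^ j ≠ 0 := (pow_pos h1 j).ne'
      field_simp
    rw [h5]
    push_cast
    ring
  -- continuity
  have hcont : Continuous fun σ : ℝ =>
      ∫ x in Ω, Complex.exp (Complex.I * (ρ (ε * σ ^ d) * inner ℝ v x : ℝ)) *
        Complex.exp (Complex.I * ∑ j ∈ Finset.range (d + 1),
          ((ε * κ ^ j * σ ^ (d - j) : ℝ) : ℂ) * (h j x : ℝ)) := by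
    refine continuous_of_dominated (bound := fun _ => 1) ?_ ?_ (integrable_const _) ?_
    · intro s
      refine Continuous.aestronglyMeasurable ?_
      refine Continuous.mul (by fun_prop) (Complex.continuous_exp.comp (continuous_const.mul ?_))
      exact continuous_finsetSum _ fun j _ =>
        continuous_const.mul (Complex.continuous_ofReal.comp (hhc j))
    · intro σ
      refine Eventually.of_forall fun x => ?_
      rw [norm_mul, mul_comm Complex.I, Complex.norm_exp_ofReal_mul_I, one_mul]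
      have : Complex.I * ∑ j ∈ Finset.range (d + 1),
          ((ε * κ ^ j * σ ^ (d - j) : ℝ) : ℂ) * ((h j x : ℝ) : ℂ) =
          ((∑ j ∈ Finset.range (d + 1),
            (ε * κ ^ j * σ ^ (d - j)) * h j x : ℝ) : ℂ) * Complex.I := by
        push_cast; ring
      rw [this, Complex.norm_exp_ofReal_mul_I]
    · refine Eventually.of_forall fun x => ?_
      refine Continuous.mul (by fun_prop) (Complex.continuous_exp.comp (continuous_const.mul ?_))
      exact continuous_finsetSum _ fun j _ =>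
        (Complex.continuous_ofReal.comp (by fun_prop)).mul continuous_const
  have hlim := (hcont.tendsto 0).mono_left (nhdsWithin_le_nhds (s := Ioi (0 : ℝ)))
  have hmin : 0 < min 1 s0 := lt_min one_pos hs0p
  have hev : ∀ᶠ σ in 𝓝[>] (0 : ℝ),
      ∫ x in Ω, Complex.exp (Complex.I * (ρ (ε * σ ^ d) * inner ℝ v x : ℝ)) *
        Complex.exp (Complex.I * ∑ j ∈ Finset.range (d + 1),
          ((ε * κ ^ j * σ ^ (d - j) : ℝ) : ℂ) * (h j x : ℝ)) = 0 := by
    filter_upwards [self_mem_nhdsWithin, mem_nhdsWithin_of_mem_nhds (Iio_mem_nhds hmin)]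
      with s h1 h2
    exact hQ s h1 h2
  have h9 := tendsto_nhds_unique hlim ((tendsto_congr' hev).mpr tendsto_const_nhds)
  rw [← h9]
  refine integral_congr_ae (Eventually.of_forall fun x => ?_)
  simp only [ρ]
  have h10 : √(r ^ 2 - (ε * (0 : ℝ) ^ d) ^ 2 * ‖w‖ ^ 2) = r := by
    rw [zero_pow hd, mul_zero, zero_pow two_ne_zero, zero_mul, sub_zero, Real.sqrt_sq hr.le]
  have h11 : ∑ j ∈ Finset.range (d + 1),
      ((ε * κ ^ j * (0 : ℝ) ^ (d - j) : ℝ) : ℂ) * ((h j x : ℝ) : ℂ) =
      (τ : ℂ) * ((h d x : ℝ) : ℂ) := by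
    rw [Finset.sum_eq_single d]
    · rw [Nat.sub_self, pow_zero, mul_one, hκ]
    · intro j hj hjd
      have : j < d := lt_of_le_of_ne (by simpa [Nat.lt_succ_iff] using hj) hjd
      rw [zero_pow (by omega), mul_zero, Complex.ofReal_zero, zero_mul]
    · intro h
      exact absurd (Finset.mem_range.mpr (Nat.lt_succ_self d)) h
  rw [h10, h11, mul_assoc]

/-- the countability theorem for volume-preserving deformations -/
theorem ft_countable' (hv : ‖v‖ = 1) (hvw : (inner ℝ v w : ℝ) = 0)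
    (ho : IsOpen Ω) (hb : Bornology.IsBounded Ω) (hφ : ∀ t, Measurable (φ t))
    (hp : ∀ t, (volume.restrict Ω).map (φ t) = volume.restrict (O t))
    (h1v : ∀ t, ∀ x ∈ Ω, (inner ℝ v (φ t x) : ℝ) = inner ℝ v x)
    (hhc : ∀ j, Continuous (h j)) {d : ℕ} (hd : d ≠ 0)
    (h1w : ∀ t, ∀ x ∈ Ω, (inner ℝ w (φ t x) : ℝ) = ∑ j ∈ Finset.range (d + 1), t ^ j * h j x)
    {m c : ℝ} (hm : ∃ x ∈ closure Ω, h d x = m)
    (hs : ∀ x ∈ closure Ω, h d x = m → (inner ℝ v x : ℝ) = c) :
    {t : ℝ | ∃ r : ℝ, 0 < r ∧ FZ (O t) r}.Countable := by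
  have hne : Ω.Nonempty := by
    obtain ⟨x, hx, -⟩ := hm
    exact closure_nonempty_iff.mp ⟨x, hx⟩
  have hfin : IsFiniteMeasure (volume.restrict Ω) := ⟨by
    rw [Measure.restrict_apply_univ]; exact hb.measure_lt_top⟩
  -- each frequency
  have hr : ∀ r : ℝ, 0 < r → {t : ℝ | FZ (O t) r}.Countable := by
    intro r hr
    by_contra hT
    have h2 := to_cos hb (g := fun x => r * inner ℝ v x) (h := h d)
      (by fun_prop) (hhc d) (r * c)
      (fun τ => fixed_freq' hv hvw ho hb hφ hp h1v hhc hd h1w hr hT τ)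
    obtain ⟨δ, hδ, hd'⟩ := level_nhd hb.isCompact_closure (hhc d)
      (by fun_prop : Continuous fun x : E => (inner ℝ v x : ℝ)) (inv_pos.mpr hr) hs
    set A : Set ℝ := Ioo (m - δ) (m + δ) with hA
    have hui : Integrable (fun x => Real.cos (r * inner ℝ v x - r * c)) (volume.restrict Ω) :=
      Integrable.of_bound (by fun_prop : Continuous fun x : E =>
        Real.cos (r * inner ℝ v x - r * c)).aestronglyMeasurable 1
        (Eventually.of_forall fun x => by simpa using Real.abs_cos_le_one _)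
    have h3 := level (hhc d).measurable hui h2 (A := A) measurableSet_Ioo
    have hmeas : MeasurableSet ((h d) ⁻¹' A) := (hhc d).measurable measurableSet_Ioo
    rw [Measure.restrict_restrict hmeas] at h3
    set S : Set E := (h d) ⁻¹' A ∩ Ω with hS
    have hSo : IsOpen S := (isOpen_Ioo.preimage (hhc d)).inter ho
    have hSn : S.Nonempty := by
      obtain ⟨x0, hx0, hx1⟩ := hm
      have h4 : (h d) ⁻¹' A ∈ 𝓝 x0 := by
        refine (isOpen_Ioo.preimage (hhc d)).mem_nhds ?_
        show h d x0 ∈ A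
        rw [hx1, hA]
        exact ⟨by linarith, by linarith⟩
      exact mem_closure_iff_nhds.mp hx0 _ h4
    have hpos : ∀ x ∈ S, 0 < Real.cos (r * inner ℝ v x - r * c) := by
      intro x hx
      have h5 : |h d x - m| < δ := by
        have := hx.1
        simp only [mem_preimage, hA, mem_Ioo] at this
        rw [abs_lt]
        constructor <;> linarith [this.1, this.2]
      have h6 := hd' x (subset_closure hx.2) h5
      have h7 : |r * inner ℝ v x - r * c| < 1 := by
        rw [← mul_sub, abs_mul, abs_of_pos hr]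
        calc r * |(inner ℝ v x : ℝ) - c| < r * r⁻¹ := mul_lt_mul_of_pos_left h6 hr
          _ = 1 := mul_inv_cancel₀ hr.ne'
      have h8 := abs_lt.mp h7
      have h9 := Real.pi_gt_three
      exact Real.cos_pos_of_mem_Ioo ⟨by linarith, by linarith⟩
    have h10 : ∫⁻ x in S, ENNReal.ofReal (- Real.cos (r * inner ℝ v x - r * c)) = 0 := by
      rw [setLIntegral_congr_fun hSo.measurableSet (g := fun _ => 0)
        (fun x hx => by
          simp only
          rw [ENNReal.ofReal_eq_zero]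
          linarith [hpos x hx])]
      simp
    rw [h10] at h3
    have hmo : Measurable fun x : E => ENNReal.ofReal (Real.cos (r * inner ℝ v x - r * c)) := by
      fun_prop
    rw [lintegral_eq_zero_iff hmo] at h3
    have h11 : ∀ᵐ x ∂(volume.restrict S), False := by
      filter_upwards [h3, ae_restrict_mem hSo.measurableSet] with x hx1 hx2
      have h12 := ENNReal.ofReal_eq_zero.mp hx1
      linarith [hpos x hx2]
    have h13 : (volume.restrict S) univ = 0 := by
      have := ae_iff.mp h11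
      simpa using this
    rw [Measure.restrict_apply_univ] at h13
    exact (hSo.measure_pos volume hSn).ne' h13
  -- the frequencies form a countable set
  have hZ := freq_countable (v := v) hb ho hne
  have hZ' : ({r : ℝ | ∫ x in Ω, Complex.exp (Complex.I * (inner ℝ (r • v) x : ℝ)) = 0} ∩
      {r | 0 < r}).Countable := hZ.mono inter_subset_left
  refine (hZ'.biUnion fun r hr' => hr r hr'.2).mono ?_
  rintro t ⟨r, hr0, hz⟩
  refine mem_biUnion (x := r) ⟨?_, hr0⟩ hz
  have h1 := FZ_push hφ hp hz (r • v) (by rw [norm_smul, hv, Real.norm_eq_abs,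
    abs_of_pos hr0, mul_one])
  simp only [mem_ofPred_eq]
  rw [← h1]
  refine setIntegral_congr_fun ho.measurableSet fun x hx => ?_
  rw [real_inner_smul_left _ _ r, real_inner_smul_left _ _ r, h1v t x hx]

end Pool.Agent.Y278.SH
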